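import Pool.Agent.H37.GDom3

set_option autoImplicit false

open Pool.Agent.H38.NP Pool.Agent.H37.GDom

/-- For every fixed `k ≥ 2`, global domination with `k` Hamiltonian path factors is NP-hard. -/
theorem Pool.Agent.Results.MP_699b34_lc.Hard.result (k : ℕ) (hk : 2 ≤ k) :
    NPHardOn (fun I : ℕ × List (List ℕ) × Bin => Factoring k I.1 I.2.1)
      (fun I => GlobalDom I.1 I.2.1 I.2.2.val) :=
  hard hk
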